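import Pool.Agent.H.MP_a83194_lc.D

set_option autoImplicit false

namespace Pool.Agent.Results.MP_a83194_lc.Decidable

open Pool.Agent.H.MP_a83194_lc

theorem result : ComputablePred fun c => ∃ φ : Fm, φ.code = c ∧ ∀ σ, Valid (φ.subst σ) :=
  dec_sv

end Pool.Agent.Results.MP_a83194_lc.Decidable
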